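import Mathlib

namespace Pool.Agent.H.MP_b3d40b_lc
open Finset

abbrev V := ℝ × ℝ × ℝ

def dot (f y : V) : ℝ := f.1 * y.1 + f.2.1 * y.2.1 + f.2.2 * y.2.2

/-- comparison of two convex functions through selected subgradients -/
lemma cmp (U W p q : ℝ → ℝ) (S Q : ℝ) (hS : 0 < S)
    (hU : ∀ s s', 0 ≤ s → 0 ≤ s' → U s' - U s ≤ (s' - s) * p s')
    (hW : ∀ s s', 0 ≤ s → 0 ≤ s' → (s' - s) * q s ≤ W s' - W s)
    (hpq : ∀ s, 0 ≤ s → p s ≤ q s) (hq : ∀ s, 0 ≤ s → 0 ≤ q s ∧ q s ≤ Q) :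
    U S - U 0 ≤ W S - W 0 := by
  have key : ∀ h : ℝ, 0 < h → ∀ N : ℕ,
      U (N * h) - U 0 ≤ W (N * h) - W 0 + h * (q (N * h) - q 0) := by
    intro h hh N
    induction N with
    | zero => simp
    | succ N ih =>
      have a0 : (0:ℝ) ≤ N * h := by positivity
      have a1 : (0:ℝ) ≤ ((N + 1 : ℕ) : ℝ) * h := by positivity
      have b1 := hU _ _ a0 a1
      have b2 := hW _ _ a0 a1
      have b3 := hpq _ a1
      have e : ((N + 1 : ℕ) : ℝ) * h - N * h = h := by push_cast; ring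
      rw [e] at b1 b2
      nlinarith
  refine le_of_forall_pos_le_add fun ε hε => ?_
  obtain ⟨N, hN⟩ := exists_nat_gt (S * Q / ε)
  have hQ : 0 ≤ Q := (hq 0 le_rfl).1.trans (hq 0 le_rfl).2
  have hN0 : (0:ℝ) < (N + 1 : ℕ) := by positivity
  have := key (S / (N + 1 : ℕ)) (by positivity) (N + 1)
  rw [mul_div_cancel₀ _ hN0.ne'] at this
  have c1 := hq S hS.le
  have c2 := hq 0 le_rfl
  have c3 : S / (N + 1 : ℕ) * (q S - q 0) ≤ ε := by
    rw [div_mul_eq_mul_div, div_le_iff₀ hN0]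
    rw [div_lt_iff₀ hε] at hN
    push_cast
    nlinarith
  linarith

lemma zz (μ x y : ℝ) (hμ : 1 ≤ μ) (hx : 0 ≤ x) (hy : 0 ≤ y) (h : μ * x + y ≤ 0) :
    x = 0 ∧ y = 0 := by
  constructor <;> nlinarith

/-- valid value vectors -/
def ok (d e b : ℝ) (f : V) : Prop := 0 ≤ f.1 ∧ 0 ≤ f.2.1 ∧ 0 ≤ f.2.2 ∧ 0 < dot f (d, e, b)

lemma three (d e b : ℝ) (hd : 0 < d) (he : 0 ≤ e) (hb : 0 < b) (y : V → V → V)
    (hy : ∀ f g, ok d e b f → ok d e b g → (0 ≤ (y f g).1 ∧ (y f g).1 ≤ d) ∧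
      (0 ≤ (y f g).2.1 ∧ (y f g).2.1 ≤ e) ∧ (0 ≤ (y f g).2.2 ∧ (y f g).2.2 ≤ b))
    (ic1 : ∀ f f' g, ok d e b f → ok d e b f' → ok d e b g → dot f (y f g) ≤ dot f (y f' g))
    (ic2 : ∀ f g g', ok d e b f → ok d e b g → ok d e b g' → dot g (y f g') ≤ dot g (y f g))
    (pos1 : ∀ f g, ok d e b f → ok d e b g → dot f (y f g) < dot f (d, e, b))
    (t : ℝ) (ht : 0 < t)
    (h0 : y (1, 1, 1) (1/2, 1/2, 1) = (0, 0, b))
    (h1 : y (1, 1, 0) (t, t, 1) = (0, 0, b))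
    (h2 : (y (1, 1, 0) (3/2 * t, 3/2 * t, 1)).1 = d)
    (h3 : (y (1, 1, 0) (3/2 * t, 3/2 * t, 1)).2.1 = 0) : False := by
  have okg : ∀ α β : ℝ, 0 ≤ α → 0 ≤ β → ok d e b (α, β, 1) := fun α β h h' =>
    ⟨h, h', by norm_num, by simp only [dot]; positivity⟩
  have okf : ∀ α β : ℝ, 0 < α → 0 ≤ β → ok d e b (α, β, 0) := fun α β h h' =>
    ⟨h.le, h', le_rfl, by simp only [dot]; positivity⟩
  have g2 := okg (2 * t) t (by positivity) ht.le
  have gt := okg t t ht.le ht.le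
  have gh := okg (1/2) (1/2) (by norm_num) (by norm_num)
  have f0 := okf 1 1 one_pos zero_le_one
  have fD := okf 1 0 one_pos le_rfl
  have hr := pos1 _ _ fD g2
  simp only [dot] at hr
  set r := d - (y (1, 0, 0) (2 * t, t, 1)).1 with hrdef
  have hr0 : 0 < r := by linarith
  set m := 1 + e / r with hm
  have hm1 : 1 ≤ m := by have := div_nonneg he hr0.le; linarith
  have f1 := okf m 1 (by linarith) zero_le_one
  have base : ∀ μ : ℝ, 1 ≤ μ → ∀ α β : ℝ, 0 ≤ α → α ≤ t → 0 ≤ β → β ≤ t →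
      dot (α, β, 1) (y (μ, 1, 0) (α, β, 1)) = b := by
    intro μ hμ α β a1 a2 b1 b2
    have f := okf μ 1 (by linarith) zero_le_one
    have g := okg α β a1 b1
    have u := okg 1 1 zero_le_one zero_le_one
    have c1 := ic1 _ _ _ f u gh
    have c2 := ic1 _ _ _ u f gh
    have c3 := hy _ _ f gh
    rw [h0] at c1 c2
    have c4 := ic1 _ _ _ f f0 gt
    have c5 := ic2 _ _ _ f gt gh
    have c6 := hy _ _ f gt
    rw [h1] at c4
    have c7 := ic2 _ _ _ f gt g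
    have c8 := ic2 _ _ _ f g gh
    have c9 := hy _ _ f g
    simp only [dot] at c1 c2 c4 c5 c7 c8 ⊢
    obtain ⟨z1, z2⟩ := zz μ _ _ hμ c3.1.1 c3.2.1.1 (by linarith)
    obtain ⟨z3, z4⟩ := zz μ _ _ hμ c6.1.1 c6.2.1.1 (by linarith)
    rw [z1, z2] at c2 c8
    rw [z3, z4] at c7
    have e1 := mul_le_mul_of_nonneg_right a2 c9.1.1
    have e2 := mul_le_mul_of_nonneg_right b2 c9.2.1.1
    have e3 := c6.2.2.2
    apply le_antisymm <;> linarith
  have mono : ∀ (μ ν α β S : ℝ), 1 ≤ μ → 1 ≤ ν → 0 ≤ α → 0 ≤ β → 0 < S →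
      dot (α + S * μ, β + S, 1) (y (μ, 1, 0) (α + S * μ, β + S, 1))
        - dot (α, β, 1) (y (μ, 1, 0) (α, β, 1))
      ≤ dot (α + S * μ, β + S, 1) (y (ν, 1, 0) (α + S * μ, β + S, 1))
        - dot (α, β, 1) (y (ν, 1, 0) (α, β, 1)) := by
    intro μ ν α β S hμ hν a1 b1 hS
    have f := okf μ 1 (by linarith) zero_le_one
    have f' := okf ν 1 (by linarith) zero_le_one
    have g : ∀ s : ℝ, 0 ≤ s → ok d e b (α + s * μ, β + s, 1) := fun s hs =>
      okg _ _ (by positivity) (by positivity)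
    have := cmp (fun s => dot (α + s * μ, β + s, 1) (y (μ, 1, 0) (α + s * μ, β + s, 1)))
      (fun s => dot (α + s * μ, β + s, 1) (y (ν, 1, 0) (α + s * μ, β + s, 1)))
      (fun s => dot (μ, 1, 0) (y (μ, 1, 0) (α + s * μ, β + s, 1)))
      (fun s => dot (μ, 1, 0) (y (ν, 1, 0) (α + s * μ, β + s, 1))) S (μ * d + e) hS
      (fun s s' hs hs' => by
        have := ic2 _ _ _ f (g s hs) (g s' hs')
        simp only [dot] at this ⊢; linarith)
      (fun s s' hs hs' => by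
        have := ic2 _ _ _ f' (g s' hs') (g s hs)
        simp only [dot] at this ⊢; linarith)
      (fun s hs => ic1 _ _ _ f f' (g s hs))
      (fun s hs => by
        have := hy _ _ f' (g s hs)
        simp only [dot]
        constructor <;> nlinarith [this.1.1, this.1.2, this.2.1.1, this.2.1.2])
    simpa using this
  have m1 := mono 1 m t 0 t le_rfl hm1 ht.le le_rfl ht
  rw [base 1 le_rfl t 0 ht.le le_rfl le_rfl ht.le, base m hm1 t 0 ht.le le_rfl le_rfl ht.le,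
    show t + t * 1 = 2 * t by ring, zero_add] at m1
  have hs : t / (2 * m) ≤ t := div_le_self ht.le (by linarith)
  have hs0 : 0 < t / (2 * m) := by positivity
  have m2 := mono m 1 t (t - t / (2 * m)) (t / (2 * m)) hm1 le_rfl ht.le (by linarith) hs0
  rw [base 1 le_rfl t _ ht.le le_rfl (by linarith) (by linarith),
    base m hm1 t _ ht.le le_rfl (by linarith) (by linarith),
    show t + t / (2 * m) * m = 3/2 * t by field_simp; ring, sub_add_cancel] at m2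
  have g1 := okg (3/2 * t) t (by positivity) ht.le
  have g3 := okg (3/2 * t) (3/2 * t) (by positivity) (by positivity)
  have k1 := ic2 _ _ _ f0 g3 g1
  have k2 := ic2 _ _ _ f0 g2 g3
  have k3 := ic2 _ _ _ f1 g1 g2
  have k4 := ic1 _ _ _ f1 fD g2
  have k5 := hy _ _ f0 g1
  have k6 := hy _ _ f1 g2
  have k7 := hy _ _ fD g2
  simp only [dot] at m1 m2 k1 k2 k3 k4
  rw [h2, h3] at k1 k2
  have z : d ≤ (y (m, 1, 0) (2 * t, t, 1)).1 := by
    have e1 := mul_nonneg ht.le k5.2.1.1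
    have : t / 2 * d ≤ t / 2 * (y (m, 1, 0) (2 * t, t, 1)).1 := by linarith
    exact le_of_mul_le_mul_left this (by positivity)
  have z2 : m * r = r + e := by rw [hm]; field_simp
  have z3 := mul_le_mul_of_nonneg_left z (show 0 ≤ m by linarith)
  have z4 : m * r = m * d - m * (y (1, 0, 0) (2 * t, t, 1)).1 := by rw [hrdef]; ring
  linarith [k6.2.1.1, k7.2.1.2]

end Pool.Agent.H.MP_b3d40b_lc
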